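import Mathlib
import Pool.Agent.W546.FermatP.Final

/-!
# The generalized Tate conjecture for Fermat varieties over finite fields

Let `p` be a prime that does not divide `m` and let `X` be the Fermat variety
`x_0 ^ m + ... + x_(n+1) ^ m = 0` of any dimension `n` over a finite field `k` of characteristic
`p`.  Its primitive cohomology `H^n` is the sum of the lines `V(s)` of the characters `s` of degree
`m` with `n + 2` entries, on which Frobenius (of a finite extension of `k`) acts by Jacobi sums,
whose valuations are given by the theorem of Stickelberger (`slope`).  So the Galois coniveau
`N^c_l H^n` is the sum of those `V(s)` for which `Effective p m s c` holds.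

The theorem says that these `V(s)` are supported in codimension `c`, by rules that are theorems of
geometry (`Supported`):

* the lines joining the points of two Fermat varieties `X_1`, `X_2` in complementary coordinate
  subspaces form a divisor in the Fermat variety `X`, dominated by a projective line bundle over
  `X_1 × X_2`, so `N^c H(X_1) ⊗ N^c' H(X_2)` goes to `N^(c + c' + 1) H(X)` (Shioda-Katsura);
* algebraic Tate classes (here: the classes generated by the Tate classes of Fermat surfaces,
  which are algebraic by the theorem of Tate, as Fermat surfaces are dominated by products of
  curves, by pairs of points and by the cycles of Aoki and Shioda, under join and its inverse) act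
  as correspondences, which respect the coniveau filtration;
* pull back and push forward along `(x_i) ↦ (x_i ^ N)` respect the coniveau filtration.

The degrees `m` and characteristics `p` are those of `Covered`:

* `m` divides `16`, `20`, `22`, `24`, `30`, `36` or `42`, that is `m ≤ 12` or
  `m = 14, 15, 16, 18, 20, 21, 22, 24, 30, 36, 42`, and `p` is any prime not dividing `m`;
* `m` divides some `p ^ j + 1` (the supersingular case);
* some further pairs: for example `m ∣ 26` and `p` is `3` or `9` modulo `26`, `m ∣ 90` and `p` is
  `23`, `47`, `77` or `83` modulo `90`.

A subvariety defined over an extension of `k` has finitely many conjugates over `k`, whose union is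
defined over `k`; so it does not matter over which finite field the supports are defined.
-/

set_option autoImplicit false

namespace Pool.Agent.Results.MP_8abef2_ag.FermatFiniteFields

open Pool.Agent.W546.FermatP
open Pool.Agent.W546.Fermat (IsCharacter)

/-- Let `p` be a prime not dividing `m`, with `Covered p m`.  For every character `s` of degree `m`
(of a Fermat variety of any dimension `n = |s| - 2`) and every `c`, the line `V(s)` lies in the
Galois coniveau `N^c_l` (the twist of `V(s)` by `c` is effective of weight `n - 2 c`) if and only if
it is supported in codimension `c`. -/
theorem result (p m : ℕ) (hp : p.Prime) (hpm : ¬ p ∣ m) (h : Covered p m)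
    (s : Multiset (ZMod m)) (hs : IsCharacter m s) (c : ℕ) :
    Supported p m c s ↔ Effective p m s c :=
  main_all hp hpm h hs c

end Pool.Agent.Results.MP_8abef2_ag.FermatFiniteFields
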