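import Pool.Agent.W498.Niv.Galois

/-!
# The generalized Tate conjecture and the fixed part of the cohomology of a fibre

Let `f : Y ⟶ S` be a morphism of smooth projective varieties over an algebraically closed field of
any characteristic, `i : P ⟶ Y` and `i' : P' ⟶ Y` the fibres over points of `S` over which `f` is
smooth, and `H` a Weil cohomology with coefficients in `K` for which the decomposition theorem and
the relative hard Lefschetz theorem hold for `f` (in the `ℓ`-adic theory: Beilinson, Bernstein,
Deligne, Gabber). Let `N^r H^j` be the coniveau filtration, and fix `t = j - 2r`. Suppose that the
coniveau filtration on `Y` satisfies the analogue of the conjecture A (for this `t`). This is the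
case if the conjecture B holds for `Y`, so for example for products of curves, surfaces and abelian
varieties, and for the varieties dominated by such products (MP_8542b2_ag/DominatedOneCycle). Then:

1. `N^r H^j(P)` is the direct sum of `i^* N^r H^j(Y)` and of its part in the orthogonal complement
   of the fixed part `i^* H(Y)`;
2. a class on `Y` restricts to a class of coniveau at least `r` on `P` if and only if it restricts
   to a class of coniveau at least `r` on `P'`;
3. if everything is defined over a field with Galois group `Γ` (for example a finite field or a
   number field), the generalized Tate conjecture for the fixed part of `H^j(P)` is equivalent to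
   the one for the fixed part of `H^j(P')` and follows from the one for `H^j(Y)`;
4. if the notion of effectivity passes to quotients (for example over a finite field), then the
   generalized Tate conjecture for `H^j(P)` is equivalent to its conjunction for the fixed part and
   for the orthogonal complement of the fixed part.

The analogue of the conjecture A is also implied by the generalized Tate conjecture for `Y` in the
degrees `t + 2r` for all `r`. For `t = 0` it is the conjecture A, and `N^r H^(2r)` is the span of the
classes of algebraic cycles.

The proof: let `F` be the lowering operator on `H(Y)` for the class `f^*D + σ^2 E` with `σ` small. It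
lowers the coniveau by one, because of the analogue of the conjecture A. The operator
`F^s i_* : H(P) ⟶ H(Y)`, where `s = dim S`, therefore preserves the coniveau. It is equivariant, and
its composition with `i^*` is injective on the fixed part, by the representations of
`sl(2) × sl(2)` of the hard Lefschetz theorem for the perverse cohomology sheaves and of the relative
hard Lefschetz theorem.
-/

open CategoryTheory AlgebraicGeometry

universe u v

open Pool.Agent.H914 Pool.Agent.H914.VarClass Pool.Agent.H914.VarClass.Obj
  Pool.Agent.H914.WeilCohomology Pool.Agent.W498.Dom Pool.Agent.W498.Tat Pool.Agent.W498.Niv

namespace Pool.Agent.Results.MP_8abef2_ag.FixedConiveau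

/-- **The coniveau filtration and the generalized Tate conjecture on the fixed part of the
cohomology of a smooth fibre.** -/
theorem result {k : Type u} [Field k] [IsAlgClosed k] {𝒱 : VarClass k} {ops : CycleOps 𝒱}
    (W : WeilCohomology.{u, v} ops) (F : Family W) (t : ℕ) :
    (LefschetzB W F.Y F.L → ConiveauA F t) ∧
    (∀ (Γ : Type u) [Group Γ] (R : RepProperty W.K Γ) (G : GaloisAction F Γ),
      (∀ r, TateTotal R G t r) → ConiveauA F t) ∧
    (ConiveauA F t → ∀ r : ℕ,
      (∀ P : SmoothFibre F, ConiveauSplits P t r) ∧
      (∀ P P' : SmoothFibre F, ConiveauConstant P P' t r) ∧
      ∀ (Γ : Type u) [Group Γ] (R : RepProperty W.K Γ) (G : GaloisAction F Γ)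
        (P P' : SmoothFibre F) (A : FibreAction G P) (A' : FibreAction G P'),
        TateCompares R A A' t r) := by
  refine ⟨coniveauA_of_B, fun Γ _ R G h => coniveauA_of_tate R G h, fun hF r => ?_⟩
  have hS := sym_of_A hF
  exact ⟨fun P => coniveauSplits hS P r, fun P P' => coniveauConstant hS P P' r,
    fun Γ _ R G P P' A A' => ⟨tateFixed_iff A A' R hS r, tateFixed_of_total A R hS r,
      fun hR => tate_iff_split A R hR r⟩⟩

end Pool.Agent.Results.MP_8abef2_ag.FixedConiveau
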