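import Pool.Agent.W547.GTX.Main

/-!
# The generalized Tate conjecture for products of symmetric powers of surfaces

Let `F` be a number field with absolute Galois group `Γ`, let `S_0, ..., S_(r-1)` be smooth
projective surfaces over `F` with `b_1 = 0`, and let `T_i` be the transcendental part of
`H^2(S_i, ℚ_ℓ(1))` (the orthogonal complement of the classes of divisors over the algebraic
closure), `T = ⊕ T_i`.  The structure `GR` consists of the representation of `Γ` on `T`, the
intersection form `Q`, the Lie algebra `L` of the image of `Γ`, an embedding `ι` of `ℚ_ℓ` into the
complex numbers (that is `ℂ_ℓ`), and the Sen operator `x` at a place above `ℓ`: it lies in `L ⊗ ℂ`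
and is `1`, `0`, `-1` on the pieces of the Hodge-Tate decomposition, which have dimensions `p_i`,
`q_i`, `p_i` on `T_i`, where `p_i` is the geometric genus; `c` says to which surface a basis
vector of `T` belongs.

The conditions `GR.Big`: the endomorphisms of `T` commuting with an open subgroup of `Γ` are the
scalars on the `T_i`; the identity component of the Zariski closure of the image of `Γ` in `GL(T)`
is reductive, in the form of the unitary trick (`GR.Red`); `p_i` and `q_i` are coprime; and
`2 p_i^2 (p_i^2 + 1) < (q_i - 2 p_i) (q_i + p_i)`, or `p_i = 1` and `q_i` is not `0` or `2`.

The cohomology of `S_i` is spanned by algebraic classes (`Fin s`; `d` says to which surface such a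
class belongs and `cd` is its codimension) and `T_i`.  An element of
`H^(2k)(S_(a 1) × ... × S_(a m))(k)` is a form with `m` variables in `ℚ_ℓ^s ⊕ T` (Poincare duality
and Kuenneth).  The map `f` divides the factors into blocks of equal surfaces; the classes on the
product `X` of the symmetric powers `Sym^N(S_i)`, one for each block with `N` elements, are the
classes which are symmetric under the permutations of the factors in each block (`OkV.sym`).  The
sizes `N` of the blocks are arbitrary; if `f` is injective we have the product of the surfaces
itself.

Let `V` be a subspace of `H^(2k)(X)(k)` which is stable under an open subgroup of `Γ`, hence under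
the Lie algebra `L` of its image (`OkV.lie`).  Assume that in the Kuenneth components of the
elements of `V` the part `T_i` occurs in at most `p_i` of the symmetric powers (`OkV.deg`; this
always holds if at most `p_i` of the factors of `X` are symmetric powers of `S_i`).

The effectivity of `V(j)` is measured by a slope operator `N` on `T ⊗ ℂ` (`Slope`): a skew operator
which is `1`, `0`, `-1` on subspaces of dimensions `p_i`, `q_i`, `p_i` of `T_i ⊗ ℂ`.  It acts on
forms as a derivation.  There are two examples:

* Let `v` be a place of `F`, not above `ℓ`, where the surfaces have good reduction and the Newton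
  polygons of the `T_i` are equal to the Hodge polygons, and let `N` be the operator which is equal
  to `e` on the sum of the generalized eigenspaces of the Frobenius at `v` in `T ⊗ ℂ` for the
  eigenvalues of slope `e` (for a `v`-adic valuation of an algebraic closure).  On `V ⊗ ℂ` its
  eigenvalues are the slopes of the Frobenius, up to the sign.  If `V(j)` (`V` considered in
  `H^(2k)(X)`) is effective of weight `2k - 2j` in the sense of the problem, then the eigenvalues
  of the Frobenius on it and on its twisted dual are algebraic integers, so that all slopes of
  `V`, normalised to weight zero, lie between `-(k - j)` and `k - j` (`OkV.lev`).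
* The Sen operator; here the condition is that the Hodge-Tate weights of `V`, normalised to weight
  zero, lie between `-(k - j)` and `k - j`.

We prove that `V` lies in `conivK T.Q c d cd a j`, the span of the products of algebraic classes on
some factors, transcendental parts of diagonals (of codimension two) on pairs of equal factors and
arbitrary classes on the remaining factors, of total codimension at least `j` in the algebraic
part.  Such products are supported in codimension `j`, so `V` lies in `N^j H^(2k)(X)`.

So, if there is a place as in the first example, `N^j H^i(X) = N^j_ℓ H^i(X)` for all `i` and `j`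
(the odd cohomology is zero) for all products `X` of symmetric powers
`Sym^(N_1)(S_(a 1)) × ... × Sym^(N_b)(S_(a b))` with at most `p_g(S_i)` factors belonging to `S_i`,
for every `i`, and arbitrary `N_j`.
-/

open Matrix Finset Module

namespace Pool.Agent.Results.MP_8abef2_ag.ProductsOfSurfaces

open Pool.Agent.W544.PG Pool.Agent.W547.GTX

/-- The generalized Tate conjecture for products of symmetric powers of surfaces. -/
theorem result {ℓ : ℕ} [Fact ℓ.Prime] {Γ : Type} [Group Γ] [TopologicalSpace Γ]
    {n r s m b : ℕ} (T : GR ℚ_[ℓ] Γ n) (c : Fin n → Fin r) (p q : Fin r → ℕ)
    (hT : T.Big c p q) (N : Matrix (Fin n) (Fin n) ℂ) (hN : Slope T c p N)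
    (d : Fin s → Fin r) (cd : Fin s → ℕ) (a : Fin m → Fin r) (f : Fin m → Fin b)
    (hf : ∀ i i', f i = f i' → a i = a i') (k j : ℕ)
    (V : Submodule ℚ_[ℓ] ((Fin m → Fin s ⊕ Fin n) → ℚ_[ℓ]))
    (hV : OkV T c d cd a f p N k j V) :
    V ≤ conivK T.Q c d cd a j :=
  main hT N hN d cd a f hf k j V hV

end Pool.Agent.Results.MP_8abef2_ag.ProductsOfSurfaces
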